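import Pool.Agent.Lib.MP_1478a0_ag.Family

/-!
A torically chain connected projective fourfold with Kodaira dimension at least one.

The fourfold is obtained from the fibre product over the projective line of three rational elliptic
surfaces (pencils of diagonal plane cubics) by anti-flipping the products of sections to planes.
The strict transforms of the fibres are birational to a product of three elliptic curves and all
contain these planes; the pencil they form is contained in the canonical system.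
-/

namespace Pool.Agent.Results.MP_1478a0_ag.Counterexample

open Pool.Agent.Lib.MP_1478a0_ag

theorem result : ∃ (ι κ : Type) (_ : Fintype ι) (_ : Fintype κ) (b : ι → κ) (X : Set (ι → ℂ)),
    Variety b X ∧ (∀ x ∈ X, SmoothAt X x (4 + Fintype.card κ)) ∧ ToricChain b X ∧
    ∃ ω₁ ω₂ : (ι → ℂ) → (ι → ℂ) [⋀^Fin 4]→ₗ[ℂ] ℂ, Form b X 4 ω₁ ∧ Form b X 4 ω₂ ∧
      ∀ t : ℂ, ∃ x ∈ X, ∃ v : Fin 4 → ι → ℂ, (∀ j, v j ∈ tangentConeAt ℂ X x) ∧
        ω₁ x v ≠ 0 ∧ ω₂ x v = t * ω₁ x v := by
  refine ⟨Io, Ka, inferInstance, inferInstance, blk, Xx, ⟨closed_Xx, irr_Xx.isPrime⟩,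
    fun x hx => smooth_Xx hx, toricChain_Xx, om 0, om 1, form_om 0, form_om 1, fun t => ?_⟩
  obtain ⟨z, hz, hs⟩ := exists_Zz ![1, t]
  obtain ⟨u, hu, h1⟩ := exists_numF_ne hz
  refine ⟨phi z, ⟨z, hz, rfl⟩, _, fun j => (tangent_Xx hz).2 ⟨u j, hu j, rfl⟩, ?_, ?_⟩
  · rw [om_apply hz _ (Ac_ne hz) hu, hs]
    exact mul_ne_zero one_ne_zero (div_ne_zero h1 (Ac_ne hz))
  · rw [om_apply hz _ (Ac_ne hz) hu, om_apply hz _ (Ac_ne hz) hu, hs]
    simp

end Pool.Agent.Results.MP_1478a0_ag.Counterexample
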